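import Pool.Agent.D0H17.RBn.Basic

/-!
# Powers of the Beurling transform: the bound for `γ_0` when `|γ_n| ≤ γ_0`
-/

set_option autoImplicit false

namespace Pool.Agent.D0H17.RBn

open Finset Pool.Agent.Y282.RB

variable {n : ℕ} {σ : ℝ} {γ : ℕ → ℝ}

theorem s_le (h0 : 0 < σ) (hs : σ * (160 * (n : ℝ) ^ 2) ≤ 1) (hn : 1 ≤ n) : σ ≤ 1 / 160 := by
  have hn1 : (1 : ℝ) ≤ n := by exact_mod_cast hn
  have h2 : (1 : ℝ) ≤ (n : ℝ) ^ 2 := one_le_pow₀ hn1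
  have h3 : σ * 160 ≤ σ * (160 * (n : ℝ) ^ 2) := by
    apply mul_le_mul_of_nonneg_left _ h0.le
    linarith
  linarith

/-- `R_j = ∏_{i < j} (i + σ) / (i + 1 - σ)` -/
noncomputable def RR (σ : ℝ) (j : ℕ) : ℝ := ∏ i ∈ range j, ((i : ℝ) + σ) / ((i : ℝ) + 1 - σ)

theorem RR_zero (σ : ℝ) : RR σ 0 = 1 := by simp [RR]

theorem RR_succ (σ : ℝ) (j : ℕ) : RR σ (j + 1) = RR σ j * (((j : ℝ) + σ) / ((j : ℝ) + 1 - σ)) := by
  unfold RR
  rw [prod_range_succ]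

theorem RR_pos (h0 : 0 < σ) (h1 : σ < 1) (j : ℕ) : 0 < RR σ j := by
  unfold RR
  refine prod_pos fun i _ => ?_
  have h3 : (0 : ℝ) ≤ i := Nat.cast_nonneg i
  apply div_pos <;> linarith

theorem th_pos (h0 : 0 < σ) (h1 : σ < 1) (j : ℕ) : 0 < th σ j := by
  unfold th
  have h3 : (0 : ℝ) ≤ j := Nat.cast_nonneg j
  apply div_pos <;> linarith

theorem alt (h1 : σ < 1) (n : ℕ) (γ : ℕ → ℝ) : γ 0 =
    ∑ j ∈ range n, (-1) ^ j * (RR σ j / th σ j) * yy σ γ j + (-1) ^ n * RR σ n * γ n := by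
  induction n with
  | zero => simp [RR_zero]
  | succ n ih =>
    rw [sum_range_succ, RR_succ]
    have h3 : (0 : ℝ) ≤ n := Nat.cast_nonneg n
    have h4 : (n : ℝ) + 1 - σ ≠ 0 := by
      intro h; linarith
    have h5 : (-1 : ℝ) ^ n * (RR σ n / th σ n) * yy σ γ n +
        (-1) ^ (n + 1) * (RR σ n * (((n : ℝ) + σ) / ((n : ℝ) + 1 - σ))) * γ (n + 1) =
        (-1) ^ n * RR σ n * γ n := by
      unfold yy th
      rw [pow_succ]
      field_simp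
      ring
    rw [add_assoc, h5]
    exact ih

theorem RR_le (h0 : 0 < σ) (h1 : σ ≤ 1 / 2) (h4 : 4 * σ * n ≤ 1) :
    ∀ j : ℕ, 1 ≤ j → j ≤ n → (j : ℝ) * RR σ j ≤ σ * (1 + 4 * σ * j) := by
  intro j hj
  induction j, hj using Nat.le_induction with
  | base =>
    intro _
    rw [show (1 : ℕ) = 0 + 1 from rfl, RR_succ, RR_zero]
    push_cast
    rw [one_mul, zero_add, zero_add, one_mul, div_le_iff₀ (by linarith)]
    nlinarith [mul_pos h0 h0]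
  | succ j hj ih =>
    intro hjn
    have ih' := ih (by omega)
    have h3 : (1 : ℝ) ≤ j := by exact_mod_cast hj
    have hjn' : (j : ℝ) ≤ n := by exact_mod_cast (show j ≤ n by omega)
    rw [RR_succ]
    push_cast
    have h5 : ((j : ℝ) + 1) * (((j : ℝ) + σ) / ((j : ℝ) + 1 - σ)) ≤ (1 + 2 * σ) * j := by
      rw [← mul_div_assoc, div_le_iff₀ (by linarith)]
      nlinarith [mul_pos h0 (show (0 : ℝ) < j by linarith), mul_nonneg h0.le (sq_nonneg ((j : ℝ) - 1)),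
        mul_nonneg h0.le (mul_nonneg (show (0 : ℝ) ≤ j - 1 by linarith) (show (0 : ℝ) ≤ j by linarith))]
    have h6 : (0 : ℝ) < RR σ j := RR_pos h0 (by linarith) j
    calc ((j : ℝ) + 1) * (RR σ j * (((j : ℝ) + σ) / ((j : ℝ) + 1 - σ)))
        = (((j : ℝ) + 1) * (((j : ℝ) + σ) / ((j : ℝ) + 1 - σ))) * RR σ j := by ring
      _ ≤ ((1 + 2 * σ) * j) * RR σ j := by gcongr
      _ = (1 + 2 * σ) * (j * RR σ j) := by ring
      _ ≤ (1 + 2 * σ) * (σ * (1 + 4 * σ * j)) := by gcongr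
      _ ≤ σ * (1 + 4 * σ * (j + 1)) := by
          have h7 : 4 * σ * j ≤ 1 := le_trans (by gcongr) h4
          nlinarith [mul_pos h0 h0]

/-- the terms of the second sum -/
noncomputable def gg (σ : ℝ) (j : ℕ) : ℝ := (RR σ j) ^ 2 / ((th σ j) ^ 2 * kk σ j)

theorem gg_nonneg (h0 : 0 < σ) (h1 : σ < 1) (j : ℕ) : 0 ≤ gg σ j := by
  unfold gg
  have := th_pos h0 h1 j
  have := kk_pos h0 h1 j
  positivity

theorem gg_zero (h0 : 0 < σ) (h1 : σ < 1) : gg σ 0 = σ / (1 - σ) := by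
  unfold gg
  rw [RR_zero, kk_zero]
  unfold th
  have h2 : (1 - σ) ≠ 0 := by
    intro h; linarith
  norm_num
  field_simp

theorem gg_eq (h0 : 0 < σ) (h1 : σ < 1) (j : ℕ) :
    gg σ j = (RR σ j) ^ 2 * ((2 * (j : ℝ) + 1) * ((j : ℝ) + σ) / ((j : ℝ) + 1 - σ)) := by
  unfold gg th kk
  have h3 : (0 : ℝ) ≤ j := Nat.cast_nonneg j
  have h4 : (j : ℝ) + 1 - σ ≠ 0 := by
    intro h; linarith
  have h5 : (j : ℝ) + σ ≠ 0 := by
    intro h; linarith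
  field_simp

theorem gg_le (h0 : 0 < σ) (hs : σ * (160 * (n : ℝ) ^ 2) ≤ 1) (hn : 1 ≤ n) {j : ℕ} (hj : 1 ≤ j)
    (hjn : j ≤ n) : gg σ j ≤ 2 * σ ^ 2 * (1 + 1 / (10 * n)) * (1 / (j : ℝ)) := by
  have hn1 : (1 : ℝ) ≤ n := by exact_mod_cast hn
  have h1 : σ ≤ 1 / 160 := s_le h0 hs hn
  have hsn : 160 * (σ * n) ≤ 1 / n := by
    rw [le_div_iff₀ (by positivity)]
    nlinarith
  have hinv : 1 / (n : ℝ) ≤ 1 := by
    rw [div_le_one (by positivity)]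
    exact hn1
  have h4 : 4 * σ * n ≤ 1 := by linarith
  have h3 : (1 : ℝ) ≤ j := by exact_mod_cast hj
  have hjn' : (j : ℝ) ≤ n := by exact_mod_cast hjn
  have hR := RR_le h0 (by linarith) h4 j hj hjn
  have hR0 := RR_pos h0 (by linarith : σ < 1) j
  rw [gg_eq h0 (by linarith)]
  have h5 : (2 * (j : ℝ) + 1) * ((j : ℝ) + σ) / ((j : ℝ) + 1 - σ) ≤ 2 * (1 + 2 * σ) * j := by
    rw [div_le_iff₀ (by linarith)]
    nlinarith [mul_pos h0 (show (0 : ℝ) < j by linarith), mul_nonneg h0.le (sq_nonneg ((j : ℝ) - 1)),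
        mul_nonneg h0.le (mul_nonneg (show (0 : ℝ) ≤ j - 1 by linarith) (show (0 : ℝ) ≤ j by linarith))]
  set x : ℝ := 1 / (80 * n) with hx
  have hx0 : 0 < x := by positivity
  have hx1 : x ≤ 1 / 80 := by
    rw [hx]
    apply one_div_le_one_div_of_le (by norm_num)
    linarith
  have hx2 : 1 / (10 * (n : ℝ)) = 8 * x := by
    rw [hx]
    field_simp
    norm_num
  have hx3 : 1 / (n : ℝ) = 80 * x := by
    rw [hx]
    field_simp
  have h6 : 4 * σ * n ≤ 2 * x := by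
    rw [hx3] at hsn
    linarith
  have h7 : 2 * σ ≤ x := by
    have : σ ≤ σ * n := by nlinarith
    rw [hx3] at hsn
    linarith
  have h8 : (j : ℝ) * RR σ j ≤ σ * (1 + 2 * x) := by
    refine hR.trans (mul_le_mul_of_nonneg_left ?_ h0.le)
    have h81 : 4 * σ * (j : ℝ) ≤ 4 * σ * n := by gcongr
    linarith
  have h9 : ((j : ℝ) * RR σ j) ^ 2 ≤ (σ * (1 + 2 * x)) ^ 2 := by
    apply pow_le_pow_left₀ (by positivity) h8
  calc (RR σ j) ^ 2 * ((2 * (j : ℝ) + 1) * ((j : ℝ) + σ) / ((j : ℝ) + 1 - σ))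
      ≤ (RR σ j) ^ 2 * (2 * (1 + 2 * σ) * j) := by gcongr
    _ = ((j : ℝ) * RR σ j) ^ 2 * (2 * (1 + 2 * σ)) * (1 / (j : ℝ)) := by
        field_simp
    _ ≤ (σ * (1 + 2 * x)) ^ 2 * (2 * (1 + x)) * (1 / (j : ℝ)) := by gcongr
    _ = (2 * σ ^ 2 * ((1 + 2 * x) ^ 2 * (1 + x))) * (1 / (j : ℝ)) := by ring
    _ ≤ (2 * σ ^ 2 * (1 + 8 * x)) * (1 / (j : ℝ)) := by
        gcongr
        nlinarith [mul_pos hx0 hx0]
    _ = 2 * σ ^ 2 * (1 + 1 / (10 * n)) * (1 / (j : ℝ)) := by rw [hx2]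

/-- the factor in the bound of `γ_0` -/
noncomputable def AA (σ : ℝ) (n : ℕ) : ℝ := 1 / (1 - σ) + 2 * σ * (HH' 1 n + 1 / 10)

theorem sum_gg (h0 : 0 < σ) (hs : σ * (160 * (n : ℝ) ^ 2) ≤ 1) (hn : 1 ≤ n) :
    ∑ j ∈ range n, gg σ j ≤ σ * AA σ n := by
  have hn1 : (1 : ℝ) ≤ n := by exact_mod_cast hn
  have h1 : σ ≤ 1 / 160 := s_le h0 hs hn
  rw [← sum_range_add_sum_Ico _ hn, sum_range_one, gg_zero h0 (by linarith)]
  have e1 : ∑ j ∈ Ico 1 n, gg σ j ≤ 2 * σ ^ 2 * (1 + 1 / (10 * n)) * HH' 1 n := by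
    unfold HH'
    rw [mul_sum]
    refine sum_le_sum fun j hj => ?_
    have := mem_Ico.1 hj
    exact gg_le h0 hs hn this.1 this.2.le
  have e2 : (1 + 1 / (10 * (n : ℝ))) * HH' 1 n ≤ HH' 1 n + 1 / 10 := by
    have e3 := HH'_le 1 n le_rfl
    have e4 : 1 / (10 * (n : ℝ)) * HH' 1 n ≤ 1 / (10 * (n : ℝ)) * n := by gcongr
    have e5 : 1 / (10 * (n : ℝ)) * n = 1 / 10 := by
      field_simp
    linarith
  have e6 : 2 * σ ^ 2 * (1 + 1 / (10 * n)) * HH' 1 n ≤ 2 * σ ^ 2 * (HH' 1 n + 1 / 10) := by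
    rw [mul_assoc]
    gcongr
  unfold AA
  calc σ / (1 - σ) + ∑ j ∈ Ico 1 n, gg σ j
      ≤ σ / (1 - σ) + 2 * σ ^ 2 * (HH' 1 n + 1 / 10) := by linarith
    _ = σ * (1 / (1 - σ) + 2 * σ * (HH' 1 n + 1 / 10)) := by ring

theorem KK_le (h0 : 0 < σ) (h1 : σ < 1) (hn : 1 ≤ n) : KK σ n ≤ 1 / σ * AA σ n := by
  have e1 := KK_sub h0 h1 le_rfl hn
  have e2 : KK σ 1 = 1 / (σ * (1 - σ)) := by
    unfold KK
    rw [sum_range_one, kk_zero]
  have h2 : (1 - σ) ≠ 0 := by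
    intro h; linarith
  have e3 : 1 / σ * AA σ n = 1 / (σ * (1 - σ)) + 2 * (HH' 1 n + 1 / 10) := by
    unfold AA
    field_simp
  rw [e3]
  rw [e2] at e1
  linarith

theorem AA_pos (h0 : 0 < σ) (h1 : σ < 1) (n : ℕ) : 0 < AA σ n := by
  unfold AA
  have h2 : 0 < 1 - σ := by linarith
  have := HH'_nonneg 1 n
  positivity

theorem g0_le (h0 : 0 < σ) (hs : σ * (160 * (n : ℝ) ^ 2) ≤ 1) (hn : 1 ≤ n)
    (hL : Lam σ n γ = 1) (hg : 0 ≤ γ 0) (hgn : (γ n) ^ 2 ≤ (γ 0) ^ 2) :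
    γ 0 * (1 - RR σ n) ≤ AA σ n := by
  have hn1 : (1 : ℝ) ≤ n := by exact_mod_cast hn
  have h1 : σ ≤ 1 / 160 := s_le h0 hs hn
  have h1' : σ < 1 := by linarith
  have e1 : |γ n| ≤ γ 0 := abs_le_of_sq_le_sq hgn hg
  have e2 : γ 0 * (1 - RR σ n) ≤ ∑ j ∈ range n, RR σ j / th σ j * |yy σ γ j| := by
    have e3 := alt h1' n γ
    have e4 : ∑ j ∈ range n, (-1) ^ j * (RR σ j / th σ j) * yy σ γ j ≤
        ∑ j ∈ range n, RR σ j / th σ j * |yy σ γ j| := by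
      refine sum_le_sum fun j _ => ?_
      have h5 : 0 < RR σ j / th σ j := div_pos (RR_pos h0 h1' j) (th_pos h0 h1' j)
      calc (-1) ^ j * (RR σ j / th σ j) * yy σ γ j
          ≤ |(-1) ^ j * (RR σ j / th σ j) * yy σ γ j| := le_abs_self _
        _ = RR σ j / th σ j * |yy σ γ j| := by
            rw [abs_mul, abs_mul, abs_pow, abs_neg, abs_one, one_pow, one_mul, abs_of_pos h5]
    have e5 : (-1) ^ n * RR σ n * γ n ≤ RR σ n * γ 0 := by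
      have h5 := RR_pos h0 h1' n
      calc (-1) ^ n * RR σ n * γ n ≤ |(-1) ^ n * RR σ n * γ n| := le_abs_self _
        _ = RR σ n * |γ n| := by
            rw [abs_mul, abs_mul, abs_pow, abs_neg, abs_one, one_pow, one_mul, abs_of_pos h5]
        _ ≤ RR σ n * γ 0 := by gcongr
    linarith
  have e3 : (∑ j ∈ range n, RR σ j / th σ j * |yy σ γ j|) ^ 2 ≤
      (∑ j ∈ range n, kk σ j * (yy σ γ j) ^ 2) * ∑ j ∈ range n, gg σ j := by
    apply sum_sq_le_sum_mul_sum_of_sq_le_mul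
    · intro i _
      have := kk_pos h0 h1' i
      positivity
    · intro i _
      exact gg_nonneg h0 h1' i
    · intro i _
      apply le_of_eq
      have h5 := kk_pos h0 h1' i
      have h6 := th_pos h0 h1' i
      unfold gg
      rw [mul_pow, sq_abs]
      field_simp
  rw [sum_k_y h0 h1' hn hL] at e3
  have e4 : KK σ n * ∑ j ∈ range n, gg σ j ≤ (AA σ n) ^ 2 := by
    have hA := AA_pos h0 h1' n
    calc KK σ n * ∑ j ∈ range n, gg σ j ≤ (1 / σ * AA σ n) * (σ * AA σ n) := by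
          apply mul_le_mul (KK_le h0 h1' hn) (sum_gg h0 hs hn)
            (sum_nonneg fun j _ => gg_nonneg h0 h1' j) (by positivity)
      _ = (AA σ n) ^ 2 := by
          field_simp
  have e5 := abs_le_of_sq_le_sq (e3.trans e4) (AA_pos h0 h1' n).le
  exact e2.trans ((le_abs_self _).trans e5)

/-- the absolute bound -/
theorem g0_exp (h0 : 0 < σ) (hs : σ * (160 * (n : ℝ) ^ 2) ≤ 1) (hn : 1 ≤ n)
    (hL : Lam σ n γ = 1) (hg : 0 ≤ γ 0) (hgn : (γ n) ^ 2 ≤ (γ 0) ^ 2) :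
    γ 0 ≤ Real.exp (σ * (2 * HH' 1 n + 9 / 4)) := by
  have hn1 : (1 : ℝ) ≤ n := by exact_mod_cast hn
  have h1 : σ ≤ 1 / 160 := s_le h0 hs hn
  have h1' : σ < 1 := by linarith
  have e1 := g0_le h0 hs hn hL hg hgn
  have hsn : 160 * (σ * n) ≤ 1 := by nlinarith [mul_nonneg h0.le (show (0 : ℝ) ≤ n - 1 by linarith)]
  have hR : RR σ n ≤ 41 / 40 * σ := by
    have h2 := RR_le h0 (by linarith) (by linarith : 4 * σ * n ≤ 1) n hn le_rfl
    have h3 : σ * (1 + 4 * σ * n) ≤ σ * (41 / 40) := by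
      gcongr
      linarith
    have h4 := RR_pos h0 h1' n
    nlinarith
  have hR0 := RR_pos h0 h1' n
  have hR1 : 0 < 1 - RR σ n := by linarith
  have e2 : AA σ n ≤ Real.exp (σ / (1 - σ) + 2 * σ * (HH' 1 n + 1 / 10)) := by
    have h2 := Real.add_one_le_exp (σ / (1 - σ) + 2 * σ * (HH' 1 n + 1 / 10))
    have h3 : (1 - σ) ≠ 0 := by
      intro h; linarith
    have h4 : AA σ n = σ / (1 - σ) + 2 * σ * (HH' 1 n + 1 / 10) + 1 := by
      unfold AA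
      field_simp
      ring
    rw [h4]
    exact h2
  have e3 : (1 - RR σ n)⁻¹ ≤ Real.exp (RR σ n / (1 - RR σ n)) := by
    have h2 := Real.add_one_le_exp (RR σ n / (1 - RR σ n))
    have h4 : (1 - RR σ n)⁻¹ = RR σ n / (1 - RR σ n) + 1 := by
      field_simp
      ring
    rw [h4]
    exact h2
  have e4 : γ 0 ≤ AA σ n * (1 - RR σ n)⁻¹ := by
    rw [← div_eq_mul_inv, le_div_iff₀ hR1]
    exact e1
  have e5 : γ 0 ≤ Real.exp (σ / (1 - σ) + 2 * σ * (HH' 1 n + 1 / 10)) *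
      Real.exp (RR σ n / (1 - RR σ n)) := by
    refine e4.trans ?_
    exact mul_le_mul e2 e3 (inv_nonneg.2 hR1.le) (Real.exp_pos _).le
  rw [← Real.exp_add] at e5
  refine e5.trans (Real.exp_le_exp.2 ?_)
  have e6 : σ / (1 - σ) ≤ 101 / 100 * σ := by
    rw [div_le_iff₀ (by linarith)]
    nlinarith
  have e7 : RR σ n / (1 - RR σ n) ≤ 26 / 25 * σ := by
    rw [div_le_iff₀ hR1]
    nlinarith
  nlinarith

end Pool.Agent.D0H17.RBn
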