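import Pool.Agent.Y282.RB.Stm2

/-!
# Powers of the Beurling transform: weights and the first estimates, general `n`

`σ = 1 / p`, `t = √(TT n γ)`, `e_j = γ_0 - y_j`.
-/

set_option autoImplicit false

namespace Pool.Agent.D0H17.RBn

open Finset Pool.Agent.Y282.RB

variable {n : ℕ} {σ : ℝ} {γ : ℕ → ℝ}

theorem kk_zero (σ : ℝ) : kk σ 0 = 1 / (σ * (1 - σ)) := by
  unfold kk
  norm_num

theorem kk_pos (h0 : 0 < σ) (h1 : σ < 1) (j : ℕ) : 0 < kk σ j := by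
  unfold kk
  have h3 : (0 : ℝ) ≤ j := Nat.cast_nonneg j
  have h4 : 0 < (j : ℝ) + σ := by linarith
  have h5 : 0 < (j : ℝ) + 1 - σ := by linarith
  positivity

theorem kk_le (h0 : 0 < σ) (h1 : σ < 1) {j : ℕ} (hj : 1 ≤ j) :
    kk σ j ≤ (2 * (j : ℝ) + 1) / ((j : ℝ) * ((j : ℝ) + 1)) := by
  unfold kk
  have h3 : (1 : ℝ) ≤ j := by exact_mod_cast hj
  have h4 : 0 < σ * (1 - σ) := mul_pos h0 (by linarith)
  apply div_le_div_of_nonneg_left (by positivity) (by positivity)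
  nlinarith

theorem kk_le_two (h0 : 0 < σ) (h1 : σ < 1) {j : ℕ} (hj : 1 ≤ j) : kk σ j ≤ 2 / (j : ℝ) := by
  refine (kk_le h0 h1 hj).trans ?_
  have h3 : (1 : ℝ) ≤ j := by exact_mod_cast hj
  rw [div_le_div_iff₀ (by positivity) (by positivity)]
  nlinarith

theorem kk_zero_ge (h0 : 0 < σ) (h1 : σ < 1) : 1 / σ ≤ kk σ 0 := by
  rw [kk_zero]
  apply one_div_le_one_div_of_le (mul_pos h0 (by linarith))
  nlinarith

theorem KK_ge (h0 : 0 < σ) (h1 : σ < 1) {M : ℕ} (hM : 1 ≤ M) : 1 / σ ≤ KK σ M := by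
  refine (kk_zero_ge h0 h1).trans ?_
  unfold KK
  exact single_le_sum (f := fun j => kk σ j) (fun j _ => (kk_pos h0 h1 j).le)
    (mem_range.2 (by omega))

theorem KK_pos (h0 : 0 < σ) (h1 : σ < 1) {M : ℕ} (hM : 1 ≤ M) : 0 < KK σ M :=
  lt_of_lt_of_le (by positivity) (KK_ge h0 h1 hM)

/-- the partial sums of the harmonic series -/
noncomputable def HH' (M n : ℕ) : ℝ := ∑ j ∈ Ico M n, 1 / (j : ℝ)

theorem HH'_nonneg (M n : ℕ) : 0 ≤ HH' M n := sum_nonneg fun j _ => by positivity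

theorem HH'_le (M n : ℕ) (hM : 1 ≤ M) : HH' M n ≤ n := by
  unfold HH'
  calc ∑ j ∈ Ico M n, 1 / (j : ℝ) ≤ ∑ j ∈ Ico M n, (1 : ℝ) := by
        refine sum_le_sum fun j hj => ?_
        have h1 : 1 ≤ j := hM.trans (mem_Ico.1 hj).1
        have h2 : (1 : ℝ) ≤ j := by exact_mod_cast h1
        rw [div_le_one (by linarith)]
        exact h2
    _ = ((n - M : ℕ) : ℝ) := by simp
    _ ≤ n := by exact_mod_cast Nat.sub_le n M

theorem exp_HH' (M n : ℕ) (hM : 1 ≤ M) (hn : M + 1 ≤ n) :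
    Real.exp (HH' M n) ≤ Real.exp 1 * ((n : ℝ) - 1) / M := by
  have hM' : (1 : ℝ) ≤ M := by exact_mod_cast hM
  induction n, hn using Nat.le_induction with
  | base =>
    unfold HH'
    rw [Nat.Ico_succ_singleton, sum_singleton]
    push_cast
    rw [add_sub_cancel_right, mul_div_assoc, div_self (by positivity), mul_one]
    apply Real.exp_le_exp.2
    rw [div_le_one (by positivity)]
    exact hM'
  | succ n hn ih =>
    have hn1 : (2 : ℝ) ≤ n := by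
      have : 2 ≤ n := by omega
      exact_mod_cast this
    have e1 : HH' M (n + 1) = HH' M n + 1 / (n : ℝ) := by
      unfold HH'
      rw [sum_Ico_succ_top (by omega)]
    rw [e1, Real.exp_add]
    have h2 : Real.exp (1 / (n : ℝ)) ≤ n / ((n : ℝ) - 1) := by
      have h3 := Real.add_one_le_exp (-(1 / (n : ℝ)))
      have h4 : 0 < -(1 / (n : ℝ)) + 1 := by
        have : 1 / (n : ℝ) ≤ 1 / 2 := one_div_le_one_div_of_le (by norm_num) hn1
        linarith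
      have h5 : Real.exp (1 / (n : ℝ)) = (Real.exp (-(1 / (n : ℝ))))⁻¹ := by
        rw [← Real.exp_neg, neg_neg]
      rw [h5]
      calc (Real.exp (-(1 / (n : ℝ))))⁻¹ ≤ (-(1 / (n : ℝ)) + 1)⁻¹ := by
            apply inv_anti₀ h4 h3
        _ = n / ((n : ℝ) - 1) := by
            have h6 : (n : ℝ) - 1 ≠ 0 := by
              intro h; linarith
            have h7 : (n : ℝ) ≠ 0 := by
              intro h; linarith
            have h8 : -(1 / (n : ℝ)) + 1 = ((n : ℝ) - 1) / n := by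
              field_simp
              ring
            rw [h8, inv_div]
    calc Real.exp (HH' M n) * Real.exp (1 / (n : ℝ))
        ≤ (Real.exp 1 * ((n : ℝ) - 1) / M) * (n / ((n : ℝ) - 1)) :=
          mul_le_mul ih h2 (Real.exp_pos _).le ((Real.exp_pos _).le.trans ih)
      _ = Real.exp 1 * (((n + 1 : ℕ) : ℝ) - 1) / M := by
          have h6 : (n : ℝ) - 1 ≠ 0 := by
            intro h; linarith
          push_cast
          field_simp
          ring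

theorem exp_HH'_le (M n : ℕ) (hM : 1 ≤ M) (hn : M ≤ n) :
    Real.exp (HH' M n) ≤ Real.exp 1 * (n : ℝ) / M := by
  have hM' : (1 : ℝ) ≤ M := by exact_mod_cast hM
  rcases hn.eq_or_lt with h | h
  · subst h
    unfold HH'
    rw [Ico_self, sum_empty, mul_div_assoc, div_self (by positivity), mul_one]
    exact Real.exp_le_exp.2 zero_le_one
  · refine (exp_HH' M n hM h).trans ?_
    gcongr
    linarith

theorem KK_sub (h0 : 0 < σ) (h1 : σ < 1) {M : ℕ} (hM : 1 ≤ M) (hn : M ≤ n) :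
    KK σ n ≤ KK σ M + 2 * HH' M n := by
  unfold KK HH'
  rw [← sum_range_add_sum_Ico _ hn, mul_sum]
  gcongr with j hj
  have := kk_le_two h0 h1 (hM.trans (mem_Ico.1 hj).1)
  calc kk σ j ≤ 2 / (j : ℝ) := this
    _ = 2 * (1 / (j : ℝ)) := by ring

/-- `e_j` in terms of the differences -/
theorem e_eq (σ : ℝ) (γ : ℕ → ℝ) (j : ℕ) : γ 0 - yy σ γ j =
    ∑ i ∈ range j, (γ i - γ (i + 1)) + (1 - th σ j) * (γ j - γ (j + 1)) := by
  rw [sum_range_sub']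
  unfold yy
  ring

theorem cs2 {A B C D a e : ℝ} (hA : 0 ≤ A) (hB : 0 ≤ B) (hC : 0 ≤ C) (hD : 0 ≤ D)
    (ha : a ^ 2 ≤ A * B) (he : e ^ 2 ≤ C * D) : (a + e) ^ 2 ≤ (A + C) * (B + D) := by
  have h1 : (2 * (a * e)) ^ 2 ≤ (A * D + B * C) ^ 2 := by
    have h2 : (a ^ 2) * (e ^ 2) ≤ (A * B) * (C * D) := by
      apply mul_le_mul ha he (sq_nonneg _) (mul_nonneg hA hB)
    nlinarith [sq_nonneg (A * D - B * C)]
  have h2 := (abs_le_of_sq_le_sq' h1 (by positivity)).2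
  nlinarith

theorem sum_odd (j : ℕ) : ∑ i ∈ range j, (2 * (i : ℝ) + 1) = (j : ℝ) ^ 2 := by
  induction j with
  | zero => simp
  | succ j ih =>
    rw [sum_range_succ, ih]
    push_cast
    ring

theorem TT_nonneg (n : ℕ) (γ : ℕ → ℝ) : 0 ≤ TT n γ := sum_nonneg fun j _ => by positivity

theorem one_sub_th (j : ℕ) : (1 - th σ j) = ((j : ℝ) + σ) / (2 * (j : ℝ) + 1) := by
  unfold th
  field_simp
  ring

theorem e_sq {j : ℕ} (hj : j < n) : (γ 0 - yy σ γ j) ^ 2 ≤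
    ((j : ℝ) ^ 2 + ((j : ℝ) + σ) ^ 2 / (2 * (j : ℝ) + 1)) * TT n γ := by
  rw [e_eq]
  have h1 : (∑ i ∈ range j, (γ i - γ (i + 1))) ^ 2 ≤ ((j : ℝ) ^ 2) *
      ∑ i ∈ range j, (γ i - γ (i + 1)) ^ 2 / (2 * (i : ℝ) + 1) := by
    rw [← sum_odd]
    apply sum_sq_le_sum_mul_sum_of_sq_le_mul
    · intro i _
      positivity
    · intro i _
      positivity
    · intro i _
      apply le_of_eq
      field_simp
  have h2 : ((1 - th σ j) * (γ j - γ (j + 1))) ^ 2 ≤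
      (((j : ℝ) + σ) ^ 2 / (2 * (j : ℝ) + 1)) * ((γ j - γ (j + 1)) ^ 2 / (2 * (j : ℝ) + 1)) := by
    rw [one_sub_th]
    apply le_of_eq
    field_simp
  refine (cs2 (by positivity) (sum_nonneg fun i _ => by positivity) (by positivity)
    (by positivity) h1 h2).trans ?_
  apply mul_le_mul_of_nonneg_left _ (by positivity)
  rw [← sum_range_succ (fun i : ℕ => (γ i - γ (i + 1)) ^ 2 / (2 * (i : ℝ) + 1))]
  unfold TT
  apply sum_le_sum_of_subset_of_nonneg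
  · intro i hi
    rw [mem_range] at *
    omega
  · intro i _ _
    positivity

theorem abs_e_zero (h0 : 0 < σ) (hn : 1 ≤ n) : |γ 0 - yy σ γ 0| ≤ σ * √(TT n γ) := by
  have h := e_sq (n := n) (σ := σ) (γ := γ) (j := 0) (by omega)
  apply abs_le_of_sq_le_sq _ (by positivity)
  rw [mul_pow, Real.sq_sqrt (TT_nonneg n γ)]
  refine h.trans (le_of_eq ?_)
  norm_num

theorem abs_e (h0 : 0 < σ) (h1 : σ ≤ 1 / 2) {j : ℕ} (hj1 : 1 ≤ j) (hj : j < n) :
    |γ 0 - yy σ γ j| ≤ ((j : ℝ) + 1 / 2) * √(TT n γ) := by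
  have h := e_sq (n := n) (σ := σ) (γ := γ) hj
  apply abs_le_of_sq_le_sq _ (by positivity)
  rw [mul_pow, Real.sq_sqrt (TT_nonneg n γ)]
  refine h.trans ?_
  apply mul_le_mul_of_nonneg_right _ (TT_nonneg n γ)
  have h3 : (1 : ℝ) ≤ j := by exact_mod_cast hj1
  have h4 : ((j : ℝ) + σ) ^ 2 / (2 * (j : ℝ) + 1) ≤ j + 1 / 4 := by
    rw [div_le_iff₀ (by positivity)]
    nlinarith
  nlinarith

theorem k_abs_e (h0 : 0 < σ) (h1 : σ ≤ 1 / 2) {j : ℕ} (hj : j < n) :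
    kk σ j * |γ 0 - yy σ γ j| ≤ 9 / 4 * √(TT n γ) := by
  have ht : 0 ≤ √(TT n γ) := Real.sqrt_nonneg _
  rcases Nat.eq_zero_or_pos j with h | h
  · subst h
    have h2 := abs_e_zero (γ := γ) h0 (show 1 ≤ n by omega)
    rw [kk_zero]
    have h3 : 0 < σ * (1 - σ) := mul_pos h0 (by linarith)
    rw [div_mul_eq_mul_div, one_mul, div_le_iff₀ h3]
    refine h2.trans ?_
    have : 0 ≤ σ * √(TT n γ) := by positivity
    nlinarith
  · have h2 := abs_e (γ := γ) h0 h1 h hj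
    have h3 : (1 : ℝ) ≤ j := by exact_mod_cast h
    calc kk σ j * |γ 0 - yy σ γ j| ≤ ((2 * (j : ℝ) + 1) / ((j : ℝ) * ((j : ℝ) + 1))) *
          (((j : ℝ) + 1 / 2) * √(TT n γ)) := by
          apply mul_le_mul (kk_le h0 (by linarith) h) h2 (abs_nonneg _) (by positivity)
      _ = (((2 * (j : ℝ) + 1) / ((j : ℝ) * ((j : ℝ) + 1))) * ((j : ℝ) + 1 / 2)) * √(TT n γ) := by
          ring
      _ ≤ 9 / 4 * √(TT n γ) := by
          apply mul_le_mul_of_nonneg_right _ ht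
          rw [div_mul_eq_mul_div, div_le_iff₀ (by positivity)]
          nlinarith

theorem k_e_sq (h0 : 0 < σ) (h1 : σ ≤ 1 / 2) {j : ℕ} (hj : j < n) :
    kk σ j * (γ 0 - yy σ γ j) ^ 2 ≤ 9 / 8 * (2 * (j : ℝ) + 1) * TT n γ := by
  have hT := TT_nonneg n γ
  rcases Nat.eq_zero_or_pos j with h | h
  · subst h
    have h2 := e_sq (n := n) (σ := σ) (γ := γ) (j := 0) hj
    rw [kk_zero]
    have h3 : 0 < σ * (1 - σ) := mul_pos h0 (by linarith)
    rw [div_mul_eq_mul_div, one_mul, div_le_iff₀ h3]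
    refine h2.trans ?_
    norm_num
    have : 0 ≤ σ * TT n γ := by positivity
    nlinarith
  · have h2 := abs_e (γ := γ) h0 h1 h hj
    have h3 : (1 : ℝ) ≤ j := by exact_mod_cast h
    have h4 : (γ 0 - yy σ γ j) ^ 2 ≤ ((j : ℝ) + 1 / 2) ^ 2 * TT n γ := by
      have := pow_le_pow_left₀ (abs_nonneg _) h2 2
      rwa [sq_abs, mul_pow, Real.sq_sqrt hT] at this
    calc kk σ j * (γ 0 - yy σ γ j) ^ 2 ≤ ((2 * (j : ℝ) + 1) / ((j : ℝ) * ((j : ℝ) + 1))) *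
          (((j : ℝ) + 1 / 2) ^ 2 * TT n γ) := by
          apply mul_le_mul (kk_le h0 (by linarith) h) h4 (sq_nonneg _) (by positivity)
      _ = (((2 * (j : ℝ) + 1) / ((j : ℝ) * ((j : ℝ) + 1))) * ((j : ℝ) + 1 / 2) ^ 2) * TT n γ := by
          ring
      _ ≤ 9 / 8 * (2 * (j : ℝ) + 1) * TT n γ := by
          apply mul_le_mul_of_nonneg_right _ hT
          rw [div_mul_eq_mul_div, div_le_iff₀ (by positivity)]
          nlinarith [mul_pos (show (0 : ℝ) < j by linarith) (show (0 : ℝ) < j + 1 by linarith)]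

theorem sum_k_abs_e (h0 : 0 < σ) (h1 : σ ≤ 1 / 2) {M : ℕ} (hM : M ≤ n) :
    ∑ j ∈ range M, kk σ j * |γ 0 - yy σ γ j| ≤ 9 / 4 * M * √(TT n γ) := by
  calc ∑ j ∈ range M, kk σ j * |γ 0 - yy σ γ j| ≤ ∑ j ∈ range M, 9 / 4 * √(TT n γ) :=
        sum_le_sum fun j hj => k_abs_e h0 h1 (by rw [mem_range] at hj; omega)
    _ = 9 / 4 * M * √(TT n γ) := by
        rw [sum_const, card_range, nsmul_eq_mul]
        ring

theorem sum_k_e_sq (h0 : 0 < σ) (h1 : σ ≤ 1 / 2) :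
    ∑ j ∈ range n, kk σ j * (γ 0 - yy σ γ j) ^ 2 ≤ 9 / 8 * (n : ℝ) ^ 2 * TT n γ := by
  calc ∑ j ∈ range n, kk σ j * (γ 0 - yy σ γ j) ^ 2
        ≤ ∑ j ∈ range n, 9 / 8 * (2 * (j : ℝ) + 1) * TT n γ :=
        sum_le_sum fun j hj => k_e_sq h0 h1 (mem_range.1 hj)
    _ = 9 / 8 * (n : ℝ) ^ 2 * TT n γ := by
        rw [← sum_mul, ← mul_sum, sum_odd]

theorem sum_k_y (h0 : 0 < σ) (h1 : σ < 1) (hn : 1 ≤ n) (hL : Lam σ n γ = 1) :
    ∑ j ∈ range n, kk σ j * (yy σ γ j) ^ 2 = KK σ n := by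
  unfold Lam at hL
  rwa [div_eq_one_iff_eq (KK_pos h0 h1 hn).ne'] at hL

/-- the upper bound of `γ_0 ^ 2` from the first `M` terms -/
theorem upper (h0 : 0 < σ) (h1 : σ ≤ 1 / 2) {M : ℕ} (hM : 1 ≤ M) (hn : M ≤ n)
    (hL : Lam σ n γ = 1) (hg : 0 ≤ γ 0) :
    (γ 0) ^ 2 - 1 ≤ σ * (2 * HH' M n + 9 / 2 * γ 0 * (M * √(TT n γ))) := by
  have h1' : σ < 1 := by linarith
  have hK := KK_pos h0 h1' hM
  have e1 := sum_k_y h0 h1' (hM.trans hn) hL
  have e2 : ∑ j ∈ range M, kk σ j * (yy σ γ j) ^ 2 ≤ KK σ n := by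
    rw [← e1]
    apply sum_le_sum_of_subset_of_nonneg
    · intro i hi
      rw [mem_range] at *
      omega
    · intro i _ _
      have := kk_pos h0 h1' i
      positivity
  have e3 : (γ 0) ^ 2 * KK σ M - 2 * γ 0 * (9 / 4 * M * √(TT n γ)) ≤
      ∑ j ∈ range M, kk σ j * (yy σ γ j) ^ 2 := by
    have e4 : ∑ j ∈ range M, (kk σ j * (γ 0) ^ 2 - 2 * γ 0 * (kk σ j * |γ 0 - yy σ γ j|)) ≤
        ∑ j ∈ range M, kk σ j * (yy σ γ j) ^ 2 := by
      refine sum_le_sum fun j _ => ?_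
      have hk := kk_pos h0 h1' j
      have h5 : (γ 0) ^ 2 - 2 * γ 0 * |γ 0 - yy σ γ j| ≤ (yy σ γ j) ^ 2 := by
        have h6 := mul_le_mul_of_nonneg_left (le_abs_self (γ 0 - yy σ γ j)) hg
        nlinarith [sq_nonneg (γ 0 - yy σ γ j)]
      nlinarith
    rw [sum_sub_distrib, ← sum_mul, ← mul_sum] at e4
    have e5 := sum_k_abs_e (γ := γ) h0 h1 hn
    have e6 := mul_le_mul_of_nonneg_left e5 (show 0 ≤ 2 * γ 0 by linarith)
    have e7 : KK σ M = ∑ j ∈ range M, kk σ j := rfl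
    rw [e7]
    linarith
  have e8 := KK_sub (n := n) h0 h1' hM hn
  have e9 : ((γ 0) ^ 2 - 1) * KK σ M ≤ 2 * HH' M n + 9 / 2 * γ 0 * (M * √(TT n γ)) := by
    linarith
  have e10 : 0 ≤ 2 * HH' M n + 9 / 2 * γ 0 * (M * √(TT n γ)) := by
    have := HH'_nonneg M n
    positivity
  rcases le_total ((γ 0) ^ 2 - 1) 0 with h | h
  · exact h.trans (by positivity)
  · have e11 := mul_le_mul_of_nonneg_left (KK_ge h0 h1' hM) h
    have e12 : ((γ 0) ^ 2 - 1) * (1 / σ) ≤ 2 * HH' M n + 9 / 2 * γ 0 * (M * √(TT n γ)) :=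
      e11.trans e9
    rw [mul_one_div, div_le_iff₀ h0] at e12
    linarith

/-- the lower bound of `γ_0 ^ 2` -/
theorem lower (h0 : 0 < σ) (h1 : σ ≤ 1 / 2) (hn : 1 ≤ n) (hL : Lam σ n γ = 1) (hg : 0 ≤ γ 0) :
    1 - (γ 0) ^ 2 ≤ σ * (9 / 2 * γ 0 * (n * √(TT n γ)) + 9 / 8 * (n : ℝ) ^ 2 * TT n γ) := by
  have h1' : σ < 1 := by linarith
  have hK := KK_pos h0 h1' hn
  have e1 := sum_k_y h0 h1' hn hL
  have e3 : ∑ j ∈ range n, kk σ j * (yy σ γ j) ^ 2 ≤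
      (γ 0) ^ 2 * KK σ n + 2 * γ 0 * (9 / 4 * n * √(TT n γ)) + 9 / 8 * (n : ℝ) ^ 2 * TT n γ := by
    have e4 : ∑ j ∈ range n, kk σ j * (yy σ γ j) ^ 2 ≤
        ∑ j ∈ range n, (kk σ j * (γ 0) ^ 2 + 2 * γ 0 * (kk σ j * |γ 0 - yy σ γ j|) +
          kk σ j * (γ 0 - yy σ γ j) ^ 2) := by
      refine sum_le_sum fun j _ => ?_
      have hk := kk_pos h0 h1' j
      have h5 : (yy σ γ j) ^ 2 ≤ (γ 0) ^ 2 + 2 * γ 0 * |γ 0 - yy σ γ j| +
          (γ 0 - yy σ γ j) ^ 2 := by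
        have h6 := mul_le_mul_of_nonneg_left (neg_abs_le (γ 0 - yy σ γ j)) hg
        nlinarith [sq_nonneg (γ 0 - yy σ γ j)]
      nlinarith
    rw [sum_add_distrib, sum_add_distrib, ← sum_mul, ← mul_sum] at e4
    have e5 := sum_k_abs_e (γ := γ) h0 h1 (le_refl n)
    have e6 := mul_le_mul_of_nonneg_left e5 (show 0 ≤ 2 * γ 0 by linarith)
    have e7 : KK σ n = ∑ j ∈ range n, kk σ j := rfl
    have e8 := sum_k_e_sq (n := n) (γ := γ) h0 h1
    rw [e7]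
    linarith
  rw [e1] at e3
  have e9 : (1 - (γ 0) ^ 2) * KK σ n ≤
      9 / 2 * γ 0 * (n * √(TT n γ)) + 9 / 8 * (n : ℝ) ^ 2 * TT n γ := by
    linarith
  have hT := TT_nonneg n γ
  have e10 : 0 ≤ 9 / 2 * γ 0 * (n * √(TT n γ)) + 9 / 8 * (n : ℝ) ^ 2 * TT n γ := by
    positivity
  rcases le_total (1 - (γ 0) ^ 2) 0 with h | h
  · exact h.trans (by positivity)
  · have e11 := mul_le_mul_of_nonneg_left (KK_ge h0 h1' hn) h
    have e12 := e11.trans e9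
    rw [mul_one_div, div_le_iff₀ h0] at e12
    linarith

end Pool.Agent.D0H17.RBn
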