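import Pool.Agent.D0H17.RBn.Abs
import Pool.Agent.Y282.RB.C0
import Pool.Agent.Y282.RB.E0

/-!
# Powers of the Beurling transform: the pointwise inequality for every `n` and `p ≥ 160 n ^ 2`
-/

set_option autoImplicit false

namespace Pool.Agent.D0H17.RBn

open Finset Pool.Agent.Y282.RB

variable {n : ℕ} {σ r : ℝ} {γ : ℕ → ℝ}

theorem exp_two_le : Real.exp 2 ≤ 73891 / 10000 := by
  have h1 := Real.exp_one_lt_d9
  have h2 : Real.exp 2 = Real.exp 1 * Real.exp 1 := by
    rw [← Real.exp_add]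
    norm_num
  rw [h2]
  nlinarith [Real.exp_pos 1]

theorem exp_small {x : ℝ} (hx : x < 1) : Real.exp x ≤ 1 / (1 - x) := by
  have h1 := Real.add_one_le_exp (-x)
  have h2 : Real.exp x = (Real.exp (-x))⁻¹ := by
    rw [← Real.exp_neg, neg_neg]
  rw [h2, one_div]
  apply inv_anti₀ (by linarith)
  linarith

theorem exp_a : Real.exp (9 / 4 * (103 / 100)) ≤ 1083 / 100 := by
  have h1 : Real.exp (9 / 4 * (103 / 100)) = Real.exp 2 * Real.exp (127 / 400) := by
    rw [← Real.exp_add]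
    norm_num
  rw [h1]
  have h2 : Real.exp (127 / 400) ≤ 1 / (1 - 127 / 400) := exp_small (by norm_num)
  have h3 := exp_two_le
  calc Real.exp 2 * Real.exp (127 / 400) ≤ 73891 / 10000 * (1 / (1 - 127 / 400)) := by
        gcongr
    _ ≤ 1083 / 100 := by norm_num

theorem exp_c : Real.exp (17 / 4) ≤ 73 := by
  have h1 : Real.exp (17 / 4) = Real.exp 2 * Real.exp 2 * Real.exp (1 / 4) := by
    rw [← Real.exp_add, ← Real.exp_add]
    norm_num
  rw [h1]
  have h2 : Real.exp (1 / 4) ≤ 1 / (1 - 1 / 4) := exp_small (by norm_num)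
  have h3 := exp_two_le
  calc Real.exp 2 * Real.exp 2 * Real.exp (1 / 4)
      ≤ 73891 / 10000 * (73891 / 10000) * (1 / (1 - 1 / 4)) := by
        gcongr
    _ ≤ 73 := by norm_num

/-- `b ^ r ≤ exp (r (b - 1))` -/
theorem rpow_le_exp {b : ℝ} (hb : 0 ≤ b) (hr : 0 ≤ r) : b ^ r ≤ Real.exp (r * (b - 1)) := by
  have h1 : b ≤ Real.exp (b - 1) := by
    have := Real.add_one_le_exp (b - 1)
    linarith
  calc b ^ r ≤ (Real.exp (b - 1)) ^ r := Real.rpow_le_rpow hb h1 hr
    _ = Real.exp (r * (b - 1)) := by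
        rw [← Real.exp_mul]
        congr 1
        ring

/-- from `x ≤ exp (σ a)` to `(x ^ 2) ^ r ≤ exp a` -/
theorem rpow_le_of_le {x a : ℝ} (hx : 0 ≤ x) (hr0 : 0 ≤ r) (hr : r * σ = 1 / 2)
    (h : x ≤ Real.exp (σ * a)) : (x ^ 2) ^ r ≤ Real.exp a := by
  have e4 : x ^ 2 ≤ Real.exp (2 * (σ * a)) := by
    have e5 : Real.exp (2 * (σ * a)) = Real.exp (σ * a) * Real.exp (σ * a) := by
      rw [← Real.exp_add]
      congr 1
      ring
    rw [e5, sq]
    exact mul_le_mul h h hx (Real.exp_pos _).le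
  calc (x ^ 2) ^ r ≤ (Real.exp (2 * (σ * a))) ^ r :=
        Real.rpow_le_rpow (sq_nonneg _) e4 hr0
    _ = Real.exp a := by
        rw [← Real.exp_mul]
        congr 1
        calc 2 * (σ * a) * r = 2 * (r * σ) * a := by ring
          _ = a := by
              rw [hr]
              ring

/-- the case `γ_0 ≤ 1` -/
theorem case_le (h0 : 0 < σ) (hs : σ * (160 * (n : ℝ) ^ 2) ≤ 1) (hr : r * σ = 1 / 2) (hn : 1 ≤ n)
    (hL : Lam σ n γ = 1) (hg : 0 ≤ γ 0) (hg1 : γ 0 ≤ 1) :
    ph r ((γ 0) ^ 2) ≤ (r - 1) * TT n γ := by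
  have hn1 : (1 : ℝ) ≤ n := by exact_mod_cast hn
  have hn2 : (1 : ℝ) ≤ (n : ℝ) ^ 2 := one_le_pow₀ hn1
  have h1 : σ ≤ 1 / 160 := s_le h0 hs hn
  have hT := TT_nonneg n γ
  have hrn : 80 * (n : ℝ) ^ 2 ≤ r := by
    by_contra h
    push Not at h
    have : r * σ < 80 * (n : ℝ) ^ 2 * σ := mul_lt_mul_of_pos_right h h0
    nlinarith
  have hr2 : 2 ≤ r := by linarith
  set t := √(TT n γ) with ht
  have ht0 : 0 ≤ t := Real.sqrt_nonneg _
  have hTt : TT n γ = t ^ 2 := (Real.sq_sqrt hT).symm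
  set u := (n : ℝ) * t with hu
  have hu0 : 0 ≤ u := by positivity
  have hu2 : (n : ℝ) ^ 2 * TT n γ = u ^ 2 := by
    rw [hTt, hu]
    ring
  have e1 := lower h0 (by linarith) hn hL hg
  rw [← ht, ← hu, mul_assoc (9 / 8 : ℝ), hu2] at e1
  have hb0 : 0 ≤ (γ 0) ^ 2 := sq_nonneg _
  have hb1 : (γ 0) ^ 2 ≤ 1 := pow_le_one₀ hg hg1
  have e2 : 1 - (γ 0) ^ 2 ≤ σ * (9 / 2 * u + 9 / 8 * u ^ 2) := by
    refine e1.trans ?_
    gcongr
    nlinarith
  have hTr : 79 * u ^ 2 ≤ (r - 1) * TT n γ := by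
    have : 79 * (n : ℝ) ^ 2 ≤ r - 1 := by linarith
    calc 79 * u ^ 2 = 79 * (n : ℝ) ^ 2 * TT n γ := by rw [← hu2]; ring
      _ ≤ (r - 1) * TT n γ := by gcongr
  rcases le_total u 1 with h | h
  · have e3 : 1 - (γ 0) ^ 2 ≤ σ * (45 / 8 * u) := by
      refine e2.trans ?_
      gcongr
      nlinarith
    have e4 : (1 - (γ 0) ^ 2) ^ 2 ≤ (σ * (45 / 8 * u)) ^ 2 :=
      pow_le_pow_left₀ (by linarith) e3 2
    have e5 := (E0.main.1 r ((γ 0) ^ 2) hr2 hb0 hb1).1
    refine e5.trans ?_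
    calc r * (r - 1) / 2 * (1 - (γ 0) ^ 2) ^ 2
        ≤ r * (r - 1) / 2 * (σ * (45 / 8 * u)) ^ 2 := by
          apply mul_le_mul_of_nonneg_left e4
          have : 0 ≤ r - 1 := by linarith
          positivity
      _ = (r - 1) * ((r * σ) * σ * (2025 / 128) * u ^ 2) := by ring
      _ = (r - 1) * (σ * (n : ℝ) ^ 2 * (2025 / 256) * TT n γ) := by
          rw [hr, ← hu2]
          ring
      _ ≤ (r - 1) * (1 * TT n γ) := by
          have h2 : σ * (n : ℝ) ^ 2 * (2025 / 256) ≤ 1 := by nlinarith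
          have : 0 ≤ r - 1 := by linarith
          gcongr
      _ = (r - 1) * TT n γ := by ring
  · have e3 : 1 - (γ 0) ^ 2 ≤ σ * (45 / 8 * u ^ 2) := by
      refine e2.trans ?_
      gcongr
      nlinarith
    have e4 : ((γ 0) ^ 2) ^ r ≤ 1 := Real.rpow_le_one hb0 hb1 (by linarith)
    have e5 : ph r ((γ 0) ^ 2) ≤ r * (1 - (γ 0) ^ 2) := by
      unfold ph
      linarith
    refine e5.trans (le_trans ?_ hTr)
    calc r * (1 - (γ 0) ^ 2) ≤ r * (σ * (45 / 8 * u ^ 2)) := by gcongr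
      _ = (r * σ) * (45 / 8 * u ^ 2) := by ring
      _ ≤ 79 * u ^ 2 := by
          rw [hr]
          nlinarith [sq_nonneg u]

/-- the case `γ_0 ≥ 1` -/
theorem case_ge (h0 : 0 < σ) (hs : σ * (160 * (n : ℝ) ^ 2) ≤ 1) (hr : r * σ = 1 / 2) (hn : 1 ≤ n)
    (hL : Lam σ n γ = 1) (hg : 1 ≤ γ 0) (hgn : (γ n) ^ 2 ≤ (γ 0) ^ 2) :
    ph r ((γ 0) ^ 2) ≤ (r - 1) * TT n γ := by
  have hn1 : (1 : ℝ) ≤ n := by exact_mod_cast hn
  have hn2 : (1 : ℝ) ≤ (n : ℝ) ^ 2 := one_le_pow₀ hn1
  have h1 : σ ≤ 1 / 160 := s_le h0 hs hn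
  have hsn : σ * n ≤ 1 / 160 := by
    nlinarith [mul_nonneg h0.le (show (0 : ℝ) ≤ (n : ℝ) * (n - 1) by nlinarith)]
  have hT := TT_nonneg n γ
  have hrn : 80 * (n : ℝ) ^ 2 ≤ r := by
    by_contra h
    push Not at h
    have : r * σ < 80 * (n : ℝ) ^ 2 * σ := mul_lt_mul_of_pos_right h h0
    nlinarith
  have hr2 : 2 ≤ r := by linarith
  set t := √(TT n γ) with ht
  have ht0 : 0 ≤ t := Real.sqrt_nonneg _
  have hTt : TT n γ = t ^ 2 := (Real.sq_sqrt hT).symm
  set u := (n : ℝ) * t with hu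
  have hu0 : 0 ≤ u := by positivity
  have hu2 : (n : ℝ) ^ 2 * TT n γ = u ^ 2 := by
    rw [hTt, hu]
    ring
  have hg0 : 0 ≤ γ 0 := by linarith
  have hb0 : 0 ≤ (γ 0) ^ 2 := sq_nonneg _
  have hb1 : 1 ≤ (γ 0) ^ 2 := one_le_pow₀ hg
  have hr79 : 79 * (n : ℝ) ^ 2 ≤ r - 1 := by linarith
  have hTr : 79 * u ^ 2 ≤ (r - 1) * TT n γ := by
    calc 79 * u ^ 2 = 79 * (n : ℝ) ^ 2 * TT n γ := by rw [← hu2]; ring
      _ ≤ (r - 1) * TT n γ := by gcongr
  have hph : ph r ((γ 0) ^ 2) ≤ ((γ 0) ^ 2) ^ r := by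
    unfold ph
    have : 0 ≤ r * ((γ 0) ^ 2 - 1) := mul_nonneg (by linarith) (by linarith)
    linarith
  rcases le_total u 1 with h | h
  · -- `n t ≤ 1`
    have e1 := upper h0 (by linarith) hn le_rfl hL hg0
    have e0 : HH' n n = 0 := by
      unfold HH'
      rw [Ico_self, sum_empty]
    rw [← ht, ← hu, e0, mul_zero, zero_add] at e1
    have e2 : γ 0 ≤ 103 / 100 := by
      have e3 : (γ 0) ^ 2 - 1 ≤ 1 / 160 * (9 / 2 * γ 0 * 1) := by
        refine e1.trans ?_
        gcongr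
      nlinarith
    have e3 : (γ 0) ^ 2 - 1 ≤ σ * (9 / 2 * (103 / 100) * u) := by
      refine e1.trans ?_
      gcongr
    have e4 : ((γ 0) ^ 2) ^ r ≤ 1083 / 100 := by
      refine (rpow_le_exp hb0 (by linarith)).trans (le_trans (Real.exp_le_exp.2 ?_) exp_a)
      calc r * ((γ 0) ^ 2 - 1) ≤ r * (σ * (9 / 2 * (103 / 100) * 1)) := by
            have : 0 ≤ r := by linarith
            refine mul_le_mul_of_nonneg_left (e3.trans ?_) this
            gcongr
        _ = (r * σ) * (9 / 2 * (103 / 100)) := by ring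
        _ = 9 / 4 * (103 / 100) := by
            rw [hr]
            ring
    have e5 := E0.main.2 r ((γ 0) ^ 2) hr2 hb1
    refine e5.trans ?_
    have hr0 : 0 ≤ r - 1 := by linarith
    have e6 : ((γ 0) ^ 2 - 1) ^ 2 ≤ (σ * (9 / 2 * (103 / 100) * u)) ^ 2 :=
      pow_le_pow_left₀ (by linarith) e3 2
    calc r * (r - 1) / 2 * ((γ 0) ^ 2) ^ r * ((γ 0) ^ 2 - 1) ^ 2
        ≤ r * (r - 1) / 2 * (1083 / 100) * (σ * (9 / 2 * (103 / 100) * u)) ^ 2 := by
          apply mul_le_mul _ e6 (sq_nonneg _)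
          · positivity
          · gcongr
      _ = (r - 1) * ((r * σ) * σ * (1083 / 200 * (9 / 2 * (103 / 100)) ^ 2) * u ^ 2) := by ring
      _ = (r - 1) * (σ * (n : ℝ) ^ 2 * (1083 / 400 * (9 / 2 * (103 / 100)) ^ 2) * TT n γ) := by
          rw [hr, ← hu2]
          ring
      _ ≤ (r - 1) * (1 * TT n γ) := by
          have h2 : σ * (n : ℝ) ^ 2 * (1083 / 400 * (9 / 2 * (103 / 100)) ^ 2) ≤ 1 := by
            norm_num
            nlinarith
          gcongr
      _ = (r - 1) * TT n γ := by ring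
  · rcases le_total t 1 with h' | h'
    · -- `1 / n ≤ t ≤ 1`
      have htpos : 0 < t := by
        rcases ht0.eq_or_lt with h3 | h3
        · rw [hu, ← h3, mul_zero] at h
          linarith
        · exact h3
      have hinv : 1 ≤ 1 / t := by
        rw [le_div_iff₀ htpos]
        linarith
      set M := ⌊1 / t⌋₊ with hM
      have hM1 : 1 ≤ M := by
        rw [hM, Nat.one_le_floor_iff]
        exact hinv
      have hMt : (M : ℝ) ≤ 1 / t := Nat.floor_le (by positivity)
      have hMn : M ≤ n := by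
        have h3 : (M : ℝ) ≤ n := by
          refine hMt.trans ?_
          rw [div_le_iff₀ htpos]
          exact h
        exact_mod_cast h3
      have hM1' : (1 : ℝ) ≤ M := by exact_mod_cast hM1
      have hMt1 : (M : ℝ) * t ≤ 1 := by
        rw [le_div_iff₀ htpos] at hMt
        exact hMt
      have hM2 : 1 / (M : ℝ) ≤ 2 * t := by
        have h3 : 1 / t < M + 1 := Nat.lt_floor_add_one _
        have h4 : 1 / t ≤ 2 * M := by linarith
        rw [div_le_iff₀ htpos] at h4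
        rw [div_le_iff₀ (by linarith)]
        linarith
      have e1 := upper h0 (by linarith) hM1 hMn hL hg0
      rw [← ht] at e1
      have hH0 := HH'_nonneg M n
      have hHn := HH'_le M n hM1
      have e2 : γ 0 ≤ 103 / 100 := by
        have e3 : (γ 0) ^ 2 - 1 ≤ σ * (2 * n + 9 / 2 * γ 0 * 1) := by
          refine e1.trans ?_
          gcongr
        have e4 : σ * (9 / 2 * γ 0) ≤ 1 / 160 * (9 / 2 * γ 0) := by gcongr
        nlinarith
      have e3 : r * ((γ 0) ^ 2 - 1) ≤ HH' M n + 9 / 4 * (103 / 100) := by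
        calc r * ((γ 0) ^ 2 - 1) ≤ r * (σ * (2 * HH' M n + 9 / 2 * (103 / 100) * 1)) := by
              have : 0 ≤ r := by linarith
              refine mul_le_mul_of_nonneg_left (e1.trans ?_) this
              gcongr
          _ = (r * σ) * (2 * HH' M n + 9 / 2 * (103 / 100)) := by ring
          _ = HH' M n + 9 / 4 * (103 / 100) := by
              rw [hr]
              ring
      have e4 : ((γ 0) ^ 2) ^ r ≤ Real.exp (HH' M n) * Real.exp (9 / 4 * (103 / 100)) := by
        rw [← Real.exp_add]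
        exact (rpow_le_exp hb0 (by linarith)).trans (Real.exp_le_exp.2 e3)
      have e5 : Real.exp (HH' M n) ≤ 55 / 10 * u := by
        have e6 := exp_HH'_le M n hM1 hMn
        have e7 := Real.exp_one_lt_d9
        calc Real.exp (HH' M n) ≤ Real.exp 1 * (n : ℝ) / M := e6
          _ = Real.exp 1 * n * (1 / (M : ℝ)) := by ring
          _ ≤ (275 / 100) * n * (2 * t) := by
              gcongr
              linarith
          _ = 55 / 10 * u := by
              rw [hu]
              ring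
      refine hph.trans (e4.trans (le_trans ?_ hTr))
      calc Real.exp (HH' M n) * Real.exp (9 / 4 * (103 / 100))
          ≤ (55 / 10 * u) * (1083 / 100) := by
            apply mul_le_mul e5 exp_a (Real.exp_pos _).le (by positivity)
        _ ≤ 79 * u ^ 2 := by
            have h8 : u ≤ u ^ 2 := by
              rw [sq]
              exact le_mul_of_one_le_left hu0 h
            linarith
    · -- `t ≥ 1`
      have e1 := g0_exp h0 hs hn hL hg0 hgn
      have e2 : ((γ 0) ^ 2) ^ r ≤ 79 * (n : ℝ) ^ 2 := by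
        have e3 : ((γ 0) ^ 2) ^ r ≤ Real.exp (2 * HH' 1 n + 9 / 4) :=
          rpow_le_of_le hg0 (by linarith) hr e1
        have e4 : Real.exp (2 * HH' 1 n + 9 / 4) =
            Real.exp (HH' 1 n) * Real.exp (HH' 1 n) * Real.exp (9 / 4) := by
          rw [← Real.exp_add, ← Real.exp_add]
          congr 1
          ring
        have e5 : Real.exp (HH' 1 n) ≤ Real.exp 1 * n := by
          have := exp_HH'_le 1 n le_rfl hn
          simpa using this
        rw [e4] at e3
        refine e3.trans ?_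
        calc Real.exp (HH' 1 n) * Real.exp (HH' 1 n) * Real.exp (9 / 4)
            ≤ (Real.exp 1 * n) * (Real.exp 1 * n) * Real.exp (9 / 4) := by gcongr
          _ = Real.exp (17 / 4) * (n : ℝ) ^ 2 := by
              have e6 : Real.exp (17 / 4) = Real.exp 1 * Real.exp 1 * Real.exp (9 / 4) := by
                rw [← Real.exp_add, ← Real.exp_add]
                norm_num
              rw [e6]
              ring
          _ ≤ 79 * (n : ℝ) ^ 2 := by
              have := exp_c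
              gcongr
              linarith
      have hT1 : 1 ≤ TT n γ := by
        rw [hTt]
        exact one_le_pow₀ h'
      exact hph.trans (e2.trans (hr79.trans (le_mul_of_one_le_right (by linarith) hT1)))

/-- the pointwise inequality for every `n` and every `p ≥ 160 n ^ 2` -/
theorem star (n : ℕ) (p : ℝ) (hn : 1 ≤ n) (hp : 160 * (n : ℝ) ^ 2 ≤ p) : Star n p := by
  have hn1 : (1 : ℝ) ≤ n := by exact_mod_cast hn
  have hn2 : (1 : ℝ) ≤ (n : ℝ) ^ 2 := one_le_pow₀ hn1
  have hp0 : 0 < p := by linarith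
  have h0 : 0 < 1 / p := by positivity
  have hs : (1 / p) * (160 * (n : ℝ) ^ 2) ≤ 1 := by
    rw [one_div_mul_eq_div, div_le_one hp0]
    exact hp
  have hr : p / 2 * (1 / p) = 1 / 2 := by
    field_simp
  refine C0.main n p hn (by linarith) fun γ hL hg hor => ?_
  rcases le_total (γ 0) 1 with h | h
  · exact case_le h0 hs hr hn hL hg h
  · rcases hor with h' | h'
    · exact case_le h0 hs hr hn hL hg h'
    · exact case_ge h0 hs hr hn hL h h'

end Pool.Agent.D0H17.RBn
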